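import Mathlib

/-! First half of the local search step for `k`-matroid intersection: if no exchange of size at
most two improves `B` against `S`, there are disjoint `Fl`, `Yl` and the counting bound. -/

namespace Pool.Agent.Helper6.LS

open Finset

theorem ext_in {E : Type*} [DecidableEq E] (N : Matroid E) : ∀ (n : ℕ) {I J : Finset E},
    N.Indep (I : Set E) → N.Indep (J : Set E) → I.card + n ≤ J.card →
    ∃ K : Finset E, K ⊆ J \ I ∧ K.card = n ∧ N.Indep ((I ∪ K : Finset E) : Set E) := by
  intro n
  induction n with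
  | zero => intro I J hI hJ h; exact ⟨∅, by simp, by simp, by simpa using hI⟩
  | succ n ih =>
    intro I J hI hJ h
    obtain ⟨K, hK, hKc, hKi⟩ := ih hI hJ (by omega)
    have hdis : Disjoint I K := (Finset.disjoint_sdiff.mono_right hK)
    have hcard : (I ∪ K).card < J.card := by
      rw [Finset.card_union_of_disjoint hdis]; omega
    obtain ⟨e, he, heI, hind⟩ := hKi.augment_finset hJ hcard
    refine ⟨insert e K, ?_, ?_, ?_⟩
    · intro x hx
      rcases Finset.mem_insert.1 hx with rfl | hx
      · exact Finset.mem_sdiff.2 ⟨he, fun h => heI (Finset.mem_union_left _ h)⟩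
      · exact hK hx
    · rw [Finset.card_insert_of_notMem (fun h => heI (Finset.mem_union_right _ h)), hKc]
    · rw [Finset.union_insert, Finset.coe_insert]; exact hind

theorem prep {k : ℕ} (hk : 2 ≤ k) {E : Type*} [Fintype E] [DecidableEq E]
    (M : Fin k → Matroid E) {B S : Finset E}
    (hB : ∀ i, (M i).Indep (B : Set E)) (hS : ∀ i, (M i).Indep (S : Set E))
    (hno : ¬ ∃ X : Finset E, X ⊆ S \ B ∧ X.card ≤ 2 ∧ ∃ B' : Finset E, B' ⊆ B ∪ X ∧
      (∀ i, (M i).Indep (B' : Set E)) ∧ B.card < B'.card) :
    ∃ Fl Yl : Fin k → Finset E, (∀ l, Fl l ⊆ S \ B) ∧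
      (∀ l m, l ≠ m → Disjoint (Fl l) (Fl m)) ∧
      (∀ l, Yl l ⊆ B \ S) ∧ (∀ l m, l ≠ m → Disjoint (Yl l) (Yl m)) ∧
      (∀ l, (Yl l).card = (Fl l).card) ∧
      (∀ l, (M l).Indep ((B ∪ (Finset.univ.biUnion Fl \ Fl l) : Finset E) : Set E)) ∧
      (∀ l, (M l).Indep (((B \ Yl l) ∪ Finset.univ.biUnion Fl : Finset E) : Set E)) ∧
      2 * S.card ≤ k * B.card + (Finset.univ.biUnion Fl).card := by
  classical
  have hV : ∀ l, ∃ V : Finset E, V ⊆ S \ B ∧ (M l).Indep ((B ∪ V : Finset E) : Set E) ∧
      ∀ V' : Finset E, V' ⊆ S \ B → (M l).Indep ((B ∪ V' : Finset E) : Set E) →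
        V'.card ≤ V.card := by
    intro l
    have hne : (((S \ B).powerset.filter
        (fun V => (M l).Indep ((B ∪ V : Finset E) : Set E)))).Nonempty :=
      ⟨∅, by rw [Finset.mem_filter]; exact ⟨by simp, by simpa using hB l⟩⟩
    obtain ⟨V, hV, hmax⟩ := Finset.exists_max_image _ Finset.card hne
    rw [Finset.mem_filter, Finset.mem_powerset] at hV
    exact ⟨V, hV.1, hV.2, fun V' h1 h2 => hmax V' (by
      rw [Finset.mem_filter, Finset.mem_powerset]; exact ⟨h1, h2⟩)⟩
  choose V hVs hVi hVm using hV
  have hdisBV : ∀ l, Disjoint B (V l) := fun l => Finset.disjoint_sdiff.mono_right (hVs l)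
  have hPc : ∀ l, (B ∪ V l).card = B.card + (V l).card :=
    fun l => Finset.card_union_of_disjoint (hdisBV l)
  have hSP : ∀ l, S.card ≤ (B ∪ V l).card := by
    intro l
    by_contra hlt
    push Not at hlt
    obtain ⟨e, he, heP, hind⟩ := (hVi l).augment_finset (hS l) hlt
    have heB : e ∉ B := fun h => heP (Finset.mem_union_left _ h)
    have heV : e ∉ V l := fun h => heP (Finset.mem_union_right _ h)
    have := hVm l (insert e (V l)) (by
      intro x hx
      rcases Finset.mem_insert.1 hx with rfl | hx
      · exact Finset.mem_sdiff.2 ⟨he, heB⟩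
      · exact hVs l hx) (by rw [Finset.union_insert, Finset.coe_insert]; exact hind)
    rw [Finset.card_insert_of_notMem heV] at this
    omega
  obtain ⟨Fl, hFmem⟩ : ∃ Fl : Fin k → Finset E, ∀ l e, e ∈ Fl l ↔
      (e ∈ S \ B ∧ e ∉ V l) ∧ ∀ m, m ≠ l → e ∈ V m :=
    ⟨fun l => (S \ B).filter (fun e => e ∉ V l ∧ ∀ m, m ≠ l → e ∈ V m), fun l e => by
      rw [Finset.mem_filter]; tauto⟩
  have hFs : ∀ l, Fl l ⊆ S \ B := fun l e he => ((hFmem l e).1 he).1.1
  have hFd : ∀ l m, l ≠ m → Disjoint (Fl l) (Fl m) := by
    intro l m hlm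
    rw [Finset.disjoint_left]
    intro e h1 h2
    exact ((hFmem l e).1 h1).1.2 (((hFmem m e).1 h2).2 l hlm)
  have hFV : ∀ l, Finset.univ.biUnion Fl \ Fl l ⊆ V l := by
    intro l e he
    rw [Finset.mem_sdiff, Finset.mem_biUnion] at he
    obtain ⟨⟨m, -, hm⟩, hn⟩ := he
    have hml : l ≠ m := by rintro rfl; exact hn hm
    exact ((hFmem m e).1 hm).2 l hml
  have hdFV : ∀ l, Disjoint (V l) (Fl l) := by
    intro l
    rw [Finset.disjoint_left]
    intro e h1 h2
    exact ((hFmem l e).1 h2).1.2 h1
  -- the sets `Y`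
  have hY : ∀ l, ∃ Y : Finset E, Y ⊆ B \ S ∧ Y.card = (Fl l).card ∧
      (M l).Indep (((B \ Y) ∪ (V l ∪ Fl l) : Finset E) : Set E) := by
    intro l
    have hI0S : V l ∪ Fl l ∪ (B ∩ S) ⊆ S := by
      intro x hx
      rcases Finset.mem_union.1 hx with hx | hx
      · rcases Finset.mem_union.1 hx with hx | hx
        · exact (Finset.mem_sdiff.1 (hVs l hx)).1
        · exact (Finset.mem_sdiff.1 (hFs l hx)).1
      · exact (Finset.mem_inter.1 hx).2
    have hI0i : (M l).Indep ((V l ∪ Fl l ∪ (B ∩ S) : Finset E) : Set E) :=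
      (hS l).subset (by exact_mod_cast hI0S)
    have hd2 : Disjoint (V l ∪ Fl l) (B ∩ S) := by
      rw [Finset.disjoint_left]
      intro x hx hx2
      rcases Finset.mem_union.1 hx with hx | hx
      · exact (Finset.mem_sdiff.1 (hVs l hx)).2 (Finset.mem_inter.1 hx2).1
      · exact (Finset.mem_sdiff.1 (hFs l hx)).2 (Finset.mem_inter.1 hx2).1
    have hI0c : (V l ∪ Fl l ∪ (B ∩ S)).card = (V l).card + (Fl l).card + (B ∩ S).card := by
      rw [Finset.card_union_of_disjoint hd2, Finset.card_union_of_disjoint (hdFV l)]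
    have hle : (V l ∪ Fl l ∪ (B ∩ S)).card ≤ S.card := Finset.card_le_card hI0S
    have hSPl := hSP l
    obtain ⟨K, hKs, hKc, hKi⟩ := ext_in (M l)
      ((B ∪ V l).card - (V l ∪ Fl l ∪ (B ∩ S)).card) hI0i (hVi l) (by omega)
    have hKB : K ⊆ B \ S := by
      intro x hx
      have h1 := Finset.mem_sdiff.1 (hKs hx)
      have hxV : x ∉ V l := fun h => h1.2 (Finset.mem_union_left _ (Finset.mem_union_left _ h))
      have hxB : x ∈ B := by
        rcases Finset.mem_union.1 h1.1 with h | h
        · exact h
        · exact absurd h hxV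
      exact Finset.mem_sdiff.2 ⟨hxB, fun h => h1.2 (Finset.mem_union_right _
        (Finset.mem_inter.2 ⟨hxB, h⟩))⟩
    have hBS : (B \ S).card + (B ∩ S).card = B.card := Finset.card_sdiff_add_card_inter B S
    refine ⟨(B \ S) \ K, Finset.sdiff_subset, ?_, ?_⟩
    · have h1 := Finset.card_sdiff_of_subset hKB
      have h2 := hPc l
      have h3 := Finset.card_le_card hKB
      omega
    · refine hKi.subset ?_
      intro x hx
      rw [Finset.mem_coe] at hx ⊢
      rcases Finset.mem_union.1 hx with hx | hx
      · rw [Finset.mem_sdiff, Finset.mem_sdiff, Finset.mem_sdiff] at hx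
        obtain ⟨hxB, hxn⟩ := hx
        by_cases hxS : x ∈ S
        · exact Finset.mem_union_left _ (Finset.mem_union_right _
            (Finset.mem_inter.2 ⟨hxB, hxS⟩))
        · by_cases hxK : x ∈ K
          · exact Finset.mem_union_right _ hxK
          · exact absurd ⟨⟨hxB, hxS⟩, hxK⟩ hxn
      · exact Finset.mem_union_left _ (Finset.mem_union_left _ hx)
  choose Y hYs hYc hYi using hY
  have hexch : ∀ l y, y ∈ Y l → ∃ e ∈ Fl l,
      (M l).Indep ((insert e ((B ∪ V l).erase y) : Finset E) : Set E) := by
    intro l y hy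
    have hyB : y ∈ B := (Finset.mem_sdiff.1 (hYs l hy)).1
    have hyP : y ∈ B ∪ V l := Finset.mem_union_left _ hyB
    have hi1 : (M l).Indep (((B ∪ V l).erase y : Finset E) : Set E) :=
      (hVi l).subset (by exact_mod_cast Finset.erase_subset _ _)
    have hd3 : Disjoint (B \ Y l) (V l ∪ Fl l) := by
      rw [Finset.disjoint_left]
      intro x hx hx2
      have hxB := (Finset.mem_sdiff.1 hx).1
      rcases Finset.mem_union.1 hx2 with h | h
      · exact (Finset.mem_sdiff.1 (hVs l h)).2 hxB
      · exact (Finset.mem_sdiff.1 (hFs l h)).2 hxB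
    have hYB : Y l ⊆ B := (hYs l).trans Finset.sdiff_subset
    have hcard : ((B ∪ V l).erase y).card < ((B \ Y l) ∪ (V l ∪ Fl l)).card := by
      rw [Finset.card_erase_of_mem hyP, Finset.card_union_of_disjoint hd3,
        Finset.card_union_of_disjoint (hdFV l), Finset.card_sdiff_of_subset hYB, hPc l, hYc l]
      have h1 := Finset.card_le_card hYB
      have h2 : 0 < B.card := Finset.card_pos.2 ⟨y, hyB⟩
      rw [hYc l] at h1
      omega
    obtain ⟨e, he, hen, hind⟩ := hi1.augment_finset (hYi l) hcard
    refine ⟨e, ?_, by exact_mod_cast hind⟩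
    rcases Finset.mem_union.1 he with h | h
    · exfalso
      apply hen
      rw [Finset.mem_sdiff] at h
      exact Finset.mem_erase.2 ⟨fun h' => h.2 (h' ▸ hy), Finset.mem_union_left _ h.1⟩
    · rcases Finset.mem_union.1 h with h | h
      · exfalso
        apply hen
        refine Finset.mem_erase.2 ⟨?_, Finset.mem_union_right _ h⟩
        rintro rfl
        exact (Finset.mem_sdiff.1 (hVs l h)).2 hyB
      · exact h
  refine ⟨Fl, Y, hFs, hFd, hYs, ?_, hYc, ?_, ?_, ?_⟩
  · intro l m hlm
    rw [Finset.disjoint_left]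
    intro y hyl hym
    obtain ⟨e, he, hei⟩ := hexch l y hyl
    obtain ⟨e', he', hei'⟩ := hexch m y hym
    have hee : e ≠ e' := by
      rintro rfl
      exact (Finset.disjoint_left.1 (hFd l m hlm)) he he'
    have heS := Finset.mem_sdiff.1 (hFs l he)
    have heS' := Finset.mem_sdiff.1 (hFs m he')
    have hyB : y ∈ B := (Finset.mem_sdiff.1 (hYs l hyl)).1
    have hey : e ≠ y := by rintro rfl; exact heS.2 hyB
    have hey' : e' ≠ y := by rintro rfl; exact heS'.2 hyB
    apply hno
    refine ⟨{e, e'}, ?_, Finset.card_le_two, insert e (insert e' (B.erase y)), ?_, ?_, ?_⟩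
    · intro x hx
      rw [Finset.mem_insert, Finset.mem_singleton] at hx
      rcases hx with rfl | rfl
      · exact hFs l he
      · exact hFs m he'
    · intro x hx
      rw [Finset.mem_insert, Finset.mem_insert, Finset.mem_erase] at hx
      rw [Finset.mem_union, Finset.mem_insert, Finset.mem_singleton]
      tauto
    · intro i
      by_cases hil : i = l
      · subst hil
        refine hei.subset ?_
        intro x hx
        rw [Finset.mem_coe, Finset.mem_insert, Finset.mem_insert, Finset.mem_erase] at hx
        rw [Finset.mem_coe, Finset.mem_insert, Finset.mem_erase, Finset.mem_union]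
        rcases hx with rfl | rfl | hx
        · exact Or.inl rfl
        · exact Or.inr ⟨hey', Or.inr (((hFmem m x).1 he').2 i hlm)⟩
        · exact Or.inr ⟨hx.1, Or.inl hx.2⟩
      · by_cases him : i = m
        · subst him
          refine hei'.subset ?_
          intro x hx
          rw [Finset.mem_coe, Finset.mem_insert, Finset.mem_insert, Finset.mem_erase] at hx
          rw [Finset.mem_coe, Finset.mem_insert, Finset.mem_erase, Finset.mem_union]
          rcases hx with rfl | rfl | hx
          · exact Or.inr ⟨hey, Or.inr (((hFmem l x).1 he).2 i hil)⟩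
          · exact Or.inl rfl
          · exact Or.inr ⟨hx.1, Or.inl hx.2⟩
        · refine (hVi i).subset ?_
          intro x hx
          rw [Finset.mem_coe, Finset.mem_insert, Finset.mem_insert, Finset.mem_erase] at hx
          rw [Finset.mem_coe, Finset.mem_union]
          rcases hx with rfl | rfl | hx
          · exact Or.inr (((hFmem l x).1 he).2 i hil)
          · exact Or.inr (((hFmem m x).1 he').2 i him)
          · exact Or.inl hx.2
    · have h1 : e' ∉ B.erase y := fun h => heS'.2 (Finset.mem_of_mem_erase h)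
      have h2 : e ∉ insert e' (B.erase y) := by
        rw [Finset.mem_insert]
        rintro (h | h)
        · exact hee h
        · exact heS.2 (Finset.mem_of_mem_erase h)
      rw [Finset.card_insert_of_notMem h2, Finset.card_insert_of_notMem h1,
        Finset.card_erase_of_mem hyB]
      have h3 : 0 < B.card := Finset.card_pos.2 ⟨y, hyB⟩
      omega
  · intro l
    refine (hVi l).subset ?_
    exact_mod_cast Finset.union_subset_union_right (hFV l)
  · intro l
    refine (hYi l).subset ?_
    intro x hx
    rw [Finset.mem_coe, Finset.mem_union] at hx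
    rw [Finset.mem_coe, Finset.mem_union, Finset.mem_union]
    rcases hx with hx | hx
    · exact Or.inl hx
    · by_cases hxl : x ∈ Fl l
      · exact Or.inr (Or.inr hxl)
      · exact Or.inr (Or.inl (hFV l (Finset.mem_sdiff.2 ⟨hx, hxl⟩)))
  · -- counting
    set F := Finset.univ.biUnion Fl with hF
    have hc : ∀ e ∈ S \ B, 2 ≤ (Finset.univ.filter (fun l : Fin k => e ∉ V l)).card +
        (if e ∈ F then 1 else 0) := by
      intro e he
      have hex : ∃ l, e ∉ V l := by
        by_contra hall
        push Not at hall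
        apply hno
        refine ⟨{e}, by simpa using he, by simp, insert e B, ?_, ?_, ?_⟩
        · intro x hx
          rw [Finset.mem_insert] at hx
          rw [Finset.mem_union, Finset.mem_singleton]
          tauto
        · intro i
          refine (hVi i).subset ?_
          intro x hx
          rw [Finset.mem_coe, Finset.mem_insert] at hx
          rw [Finset.mem_coe, Finset.mem_union]
          rcases hx with rfl | hx
          · exact Or.inr (hall i)
          · exact Or.inl hx
        · rw [Finset.card_insert_of_notMem (Finset.mem_sdiff.1 he).2]; omega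
      obtain ⟨l, hl⟩ := hex
      by_cases hm : ∃ m, m ≠ l ∧ e ∉ V m
      · obtain ⟨m, hml, hmV⟩ := hm
        have : 1 < (Finset.univ.filter (fun l : Fin k => e ∉ V l)).card :=
          Finset.one_lt_card.2 ⟨l, by simp [hl], m, by simp [hmV], hml.symm⟩
        omega
      · push Not at hm
        have heF : e ∈ F := by
          rw [hF, Finset.mem_biUnion]
          exact ⟨l, Finset.mem_univ _, (hFmem l e).2 ⟨⟨he, hl⟩, hm⟩⟩
        have : 0 < (Finset.univ.filter (fun l : Fin k => e ∉ V l)).card :=
          Finset.card_pos.2 ⟨l, by simp [hl]⟩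
        rw [if_pos heF]
        omega
    have hsum := Finset.sum_le_sum hc
    rw [Finset.sum_add_distrib, Finset.sum_const, smul_eq_mul] at hsum
    have hdc : ∑ e ∈ S \ B, (Finset.univ.filter (fun l : Fin k => e ∉ V l)).card
        = ∑ l : Fin k, ((S \ B).filter (fun e => e ∉ V l)).card :=
      Finset.sum_card_bipartiteAbove_eq_sum_card_bipartiteBelow (fun e (l : Fin k) => e ∉ V l)
    have hDl : ∀ l : Fin k, ((S \ B).filter (fun e => e ∉ V l)).card ≤ (B \ S).card := by
      intro l
      have h1 : (S \ B).filter (fun e => e ∉ V l) = (S \ B) \ V l := by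
        ext x; simp [Finset.mem_sdiff, and_assoc]
      rw [h1, Finset.card_sdiff_of_subset (hVs l)]
      have h2 := hSP l
      have h3 := hPc l
      have h4 : (B \ S).card + (B ∩ S).card = B.card := Finset.card_sdiff_add_card_inter B S
      have h5 : (S \ B).card + (S ∩ B).card = S.card := Finset.card_sdiff_add_card_inter S B
      rw [Finset.inter_comm S B] at h5
      omega
    have hD2 : ∑ l : Fin k, ((S \ B).filter (fun e => e ∉ V l)).card ≤ k * (B \ S).card := by
      calc _ ≤ ∑ _l : Fin k, (B \ S).card := Finset.sum_le_sum (fun l _ => hDl l)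
        _ = k * (B \ S).card := by simp
    have hFc : ∑ e ∈ S \ B, (if e ∈ F then 1 else 0) ≤ F.card := by
      rw [← Finset.card_filter]
      exact Finset.card_le_card (fun x hx => (Finset.mem_filter.1 hx).2)
    have h4 : (B \ S).card + (B ∩ S).card = B.card := Finset.card_sdiff_add_card_inter B S
    have h5 : (S \ B).card + (S ∩ B).card = S.card := Finset.card_sdiff_add_card_inter S B
    rw [Finset.inter_comm S B] at h5
    have h6 : 2 * (B ∩ S).card ≤ k * (B ∩ S).card := Nat.mul_le_mul_right _ hk
    have h7 : k * B.card = k * (B \ S).card + k * (B ∩ S).card := by rw [← h4]; ring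
    rw [hdc] at hsum
    omega

end Pool.Agent.Helper6.LS
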